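import Pool.Agent.H89.L.Y116_UV_Defs

/-!
# Motivic and `ℓ`-adic homology of schemes over a finite field: definitions
-/

set_option autoImplicit false

open CategoryTheory AlgebraicGeometry

namespace Pool.Agent.N882.UE

open Pool.Agent.Y116.UV

noncomputable section

/-- Data of motivic and `ℓ`-adic homology of the schemes over the field `k`: the motivic homology
`M X i j = H_i^M(X, ℚ(j)) = CH_j(X, i - 2 j) ⊗ ℚ`, the `ℓ`-adic homology
`E X i j = H_i(X, ℚ_ℓ(j)) ⊗ Ω` over the algebraic closure, the operation `frob` of the Frobenius on it,
and the regulator `reg`. -/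
structure Homology (k Ω : Type) [Field k] [Field Ω] where
  /-- motivic homology -/
  M : Sch k → ℤ → ℤ → Type
  [mgrp : ∀ X i j, AddCommGroup (M X i j)]
  [mmod : ∀ X i j, Module ℚ (M X i j)]
  /-- `ℓ`-adic homology -/
  E : Sch k → ℤ → ℤ → Type
  [egrp : ∀ X i j, AddCommGroup (E X i j)]
  [emod : ∀ X i j, Module Ω (E X i j)]
  /-- the Frobenius -/
  frob : ∀ X i j, E X i j →ₗ[Ω] E X i j
  /-- the regulator -/
  reg : ∀ X i j, M X i j →+ E X i j

attribute [instance] Homology.mgrp Homology.mmod Homology.egrp Homology.emod

variable {k Ω : Type} [Field k] [Field Ω] (T : Homology k Ω)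

/-- Jannsen's generalised conjecture of Tate and Beilinson for `X`: in all degrees and for all twists
the regulator is, after extension of scalars, an isomorphism of the motivic homology with the space of
the Frobenius invariant elements (these are the linear combinations of the images, and linearly
independent elements have linearly independent images), and the eigenvalue one of the Frobenius is
semisimple. -/
def TB (X : Sch k) : Prop :=
  ∀ i j : ℤ,
    (∀ e, T.frob X i j e = e ↔ e ∈ Submodule.span Ω (Set.range (T.reg X i j))) ∧
    (∀ (r : ℕ) (x : Fin r → T.M X i j), LinearIndependent ℚ x →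
      LinearIndependent Ω fun l => T.reg X i j (x l)) ∧
    ∀ e, T.frob X i j (T.frob X i j e - e) = T.frob X i j e - e → T.frob X i j e = e

/-- A homomorphism of motivic and `ℓ`-adic homology groups which is compatible with the regulators and
the Frobenius. -/
structure Hom (X : Sch k) (i j : ℤ) (X' : Sch k) (i' j' : ℤ) where
  /-- the map of the motivic groups -/
  f : T.M X i j →+ T.M X' i' j'
  /-- the map of the `ℓ`-adic groups -/
  g : T.E X i j →ₗ[Ω] T.E X' i' j'
  reg : ∀ x, T.reg X' i' j' (f x) = g (T.reg X i j x)
  frob : ∀ x, T.frob X' i' j' (g x) = g (T.frob X i j x)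

variable {T} in
/-- Exactness for both homology theories. -/
def IsExact {X : Sch k} {i j : ℤ} {X' : Sch k} {i' j' : ℤ} {X'' : Sch k} {i'' j'' : ℤ}
    (a : Hom T X i j X' i' j') (b : Hom T X' i' j' X'' i'' j'') : Prop :=
  Function.Exact a.f b.f ∧ Function.Exact a.g b.g

/-- The long exact localisation sequences of motivic and of `ℓ`-adic homology. -/
def Localization (Z X U : Sch k) : Prop :=
  ∀ j : ℤ, ∃ (a : ∀ i, Hom T Z i j X i j) (b : ∀ i, Hom T X i j U i j)
    (d : ∀ i, Hom T U (i + 1) j Z i j),
    ∀ i, IsExact (a i) (b i) ∧ IsExact (b (i + 1)) (d i) ∧ IsExact (d i) (a i)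

/-- The homology groups of `X` are direct factors of those of `Y`, with degree raised by `2 r` and
twist raised by `r`. -/
def IsFactor (X Y : Sch k) (r : ℤ) : Prop :=
  ∀ i j : ℤ, ∃ (s : Hom T X i j Y (i + 2 * r) (j + r)) (t : Hom T Y (i + 2 * r) (j + r) X i j),
    (∀ x, t.f (s.f x) = x) ∧ ∀ x, t.g (s.g x) = x

/-- The standard properties of motivic and `ℓ`-adic homology of the separated schemes of finite type
over the field `k`: finite-dimensional `ℓ`-adic groups; invariance of the images of the regulator;
isomorphic schemes; localisation sequences for a closed subscheme and its complement; homotopy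
invariance for the affine bundles of Jouanolou (the groups of a bundle of relative dimension `m - 1`
are those of the base, twisted `m - 1` times, and conversely); the groups of an affine scheme are direct
factors of those of its product with `𝔾_m`, by the pull-backs under the projection and the unit
section. -/
structure IsTheory : Prop where
  finite : ∀ X i j, FiniteDimensional Ω (T.E X i j)
  frob_reg : ∀ X i j x, T.frob X i j (T.reg X i j x) = T.reg X i j x
  iso : ∀ {X Y : Sch k}, FT True X → Nonempty (X ≅ Y) → IsFactor T Y X 0
  localization : ∀ {Z X U : Sch k} (i : Z ⟶ X) (j : U ⟶ X), FT True X → IsTriple i j →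
    Localization T Z X U
  bundle : ∀ (A : Type) [CommRing A] [Algebra k A] [Algebra.FiniteType k A] (m : ℕ) (f : Fin m → A)
    (U : Sch k) (j : U ⟶ aff k A), IsOpenImmersion j.left →
    Set.range j.left = {x : PrimeSpectrum A | ∃ l, f l ∉ x.asIdeal} →
    IsFactor T (aff k (Jou f)) U (1 - m) ∧ IsFactor T U (aff k (Jou f)) (m - 1)
  torus : ∀ (A : Type) [CommRing A] [Algebra k A] [Algebra.FiniteType k A],
    IsFactor T (aff k A) (aff k (LaurentPolynomial A)) 1

end

end Pool.Agent.N882.UE
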