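import Pool.Agent.H57.L.W495_FM_HomFive
import Pool.Agent.H57.L.N882_UE_RegDefs
import Pool.Agent.H89.L.Y116_UV_Uni

/-!
# Motivic and `ℓ`-adic homology of schemes over a finite field

Definitions for schemes over a field `k`, as in `Pool.Agent.W495.FM.HomDefs`, and the closure properties
of Jannsen's conjecture `TB` and of the surjectivity of the cycle class maps. The linear algebra is in
`Pool.Agent.W495.FM.HomFive`; the arguments for surjectivity are those of `Pool.Agent.W495.FM.Spread`.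
-/

set_option autoImplicit false

open CategoryTheory AlgebraicGeometry

namespace Pool.Agent.N882.UE

open Pool.Agent.Y116.UV Pool.Agent.W495.FM

noncomputable section

variable {k Ω : Type} [Field k] [Field Ω] (T : Homology k Ω)

/-- For all `j` the cycle class map of `X` for cycles of dimension `j` is surjective onto the Frobenius
invariant elements of `H_(2j)(X, ℚ_ℓ(j))` (with coefficients `Ω`), and the eigenvalue one of the
Frobenius on this space is semisimple. -/
def Onto (X : Sch k) : Prop :=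
  ∀ j : ℤ, (∀ e, T.frob X (2 * j) j e = e →
      e ∈ Submodule.span Ω (Set.range (T.reg X (2 * j) j))) ∧
    ∀ e, T.frob X (2 * j) j (T.frob X (2 * j) j e - e) = T.frob X (2 * j) j e - e →
      T.frob X (2 * j) j e = e

/-- The motivic homology groups `H_n^M(X, ℚ(j)) = CH_j(X, n - 2 j) ⊗ ℚ` vanish for `n < 2 j`, and the
Frobenius has no eigenvalue one on `H_n(X, ℚ_ℓ(j))` for `n < 2 j` (the weights are at least `2 j - n`,
Deligne). -/
structure HasWeights : Prop where
  motivic : ∀ X n j, n < 2 * j → ∀ x : T.M X n j, x = 0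
  weights : ∀ X n j, n < 2 * j → ∀ e : T.E X n j, T.frob X n j e = e → e = 0

variable [CharZero Ω] {T}

/-- The groups of `X` in degree `i`, twist `j`. -/
def node (hT : IsTheory T) (X : Sch k) (i j : ℤ) : Node Ω :=
  haveI := hT.finite X i j
  { M := T.M X i j
    E := T.E X i j
    φ := T.frob X i j
    ρ := T.reg X i j
    inv := hT.frob_reg X i j }

theorem tb_iff (hT : IsTheory T) (X : Sch k) : TB T X ↔ ∀ i j, (node hT X i j).Good := by
  unfold TB
  refine forall_congr' fun i => forall_congr' fun j => ?_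
  rw [(node hT X i j).good_iff]
  exact Iff.rfl

/-- Arrows from homomorphisms. -/
def Hom.arr (hT : IsTheory T) {X X' : Sch k} {i j i' j' : ℤ} (h : Hom T X i j X' i' j') :
    Arrow (node hT X i j) (node hT X' i' j') where
  f := h.f
  g := h.g
  comm := h.reg
  frob := h.frob

theorem tb_closed (hT : IsTheory T) {Z X U : Sch k} (h : Localization T Z X U)
    (hX : TB T X) (hU : TB T U) : TB T Z := by
  rw [tb_iff hT] at hX hU ⊢
  intro i j
  obtain ⟨a, b, d, h⟩ := h j
  exact five ((b (i + 1)).arr hT) ((d i).arr hT) ((a i).arr hT) ((b i).arr hT)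
    (h i).2.1.1 (h i).2.2.1 (h i).1.1 (h i).2.1.2 (h i).2.2.2 (h i).1.2
    (hX (i + 1) j) (hU (i + 1) j) (hX i j) (hU i j)

theorem tb_total (hT : IsTheory T) {Z X U : Sch k} (h : Localization T Z X U)
    (hZ : TB T Z) (hU : TB T U) : TB T X := by
  rw [tb_iff hT] at hZ hU ⊢
  intro i j
  obtain ⟨i, rfl⟩ : ∃ k, i = k + 1 := ⟨i - 1, by ring⟩
  obtain ⟨a, b, d, h⟩ := h j
  exact five ((d (i + 1)).arr hT) ((a (i + 1)).arr hT) ((b (i + 1)).arr hT) ((d i).arr hT)
    (h (i + 1)).2.2.1 (h (i + 1)).1.1 (h i).2.1.1 (h (i + 1)).2.2.2 (h (i + 1)).1.2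
    (h i).2.1.2
    (hU (i + 1 + 1) j) (hZ (i + 1) j) (hU (i + 1) j) (hZ i j)

theorem tb_opened (hT : IsTheory T) {Z X U : Sch k} (h : Localization T Z X U)
    (hZ : TB T Z) (hX : TB T X) : TB T U := by
  rw [tb_iff hT] at hZ hX ⊢
  intro i j
  obtain ⟨i, rfl⟩ : ∃ k, i = k + 1 := ⟨i - 1, by ring⟩
  obtain ⟨a, b, d, h⟩ := h j
  exact five ((a (i + 1)).arr hT) ((b (i + 1)).arr hT) ((d i).arr hT) ((a i).arr hT)
    (h (i + 1)).1.1 (h i).2.1.1 (h i).2.2.1 (h (i + 1)).1.2 (h i).2.1.2 (h i).2.2.2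
    (hZ (i + 1) j) (hX (i + 1) j) (hZ i j) (hX i j)

theorem tb_factor (hT : IsTheory T) {X Y : Sch k} {r : ℤ} (h : IsFactor T X Y r)
    (hY : TB T Y) : TB T X := by
  rw [tb_iff hT] at hY ⊢
  intro i j
  obtain ⟨s, t, h1, h2⟩ := h i j
  exact good_retract (s.arr hT) (t.arr hT) h1 h2 (hY _ _)

/-- The extension of the regulator is surjective onto the generalised eigenspace. -/
def NOnto (A : Node Ω) : Prop := ∀ e, A.InG e → ∃ t, A.lam t = e

theorem mem_span (A : Node Ω) (e : A.E) :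
    e ∈ Submodule.span Ω (Set.range A.ρ) ↔ ∃ t, A.lam t = e := by
  constructor
  · intro he
    induction he using Submodule.span_induction with
    | mem x hx =>
      obtain ⟨y, rfl⟩ := hx
      exact ⟨TensorProduct.tmul ℚ 1 y, by rw [A.lam_tmul, one_smul]⟩
    | zero => exact ⟨0, map_zero _⟩
    | add x y _ _ hx hy =>
      obtain ⟨t, ht⟩ := hx
      obtain ⟨s, hs⟩ := hy
      exact ⟨t + s, by rw [map_add, ht, hs]⟩
    | smul c x _ hx =>
      obtain ⟨t, ht⟩ := hx
      exact ⟨c • t, by rw [map_smul, ht]⟩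
  · rintro ⟨t, rfl⟩
    induction t using TensorProduct.induction_on with
    | zero => rw [map_zero]; exact Submodule.zero_mem _
    | tmul c x =>
      rw [A.lam_tmul]
      exact Submodule.smul_mem _ _ (Submodule.subset_span ⟨x, rfl⟩)
    | add x y hx hy => rw [map_add]; exact Submodule.add_mem _ hx hy

theorem nonto_iff (A : Node Ω) : NOnto A ↔
    (∀ e, A.φ e = e → e ∈ Submodule.span Ω (Set.range A.ρ)) ∧
    ∀ e, A.φ (A.φ e - e) = A.φ e - e → A.φ e = e := by
  have hφ : ∀ e, (A.φ - 1) e = A.φ e - e := fun e => rfl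
  constructor
  · intro h
    refine ⟨fun e he => ?_, fun e he => ?_⟩
    · rw [mem_span]
      refine h e ⟨1, ?_⟩
      rw [pow_one, hφ, he, sub_self]
    · obtain ⟨t, rfl⟩ := h e ⟨2, by
        rw [pow_two, Module.End.mul_apply, hφ, hφ, he, sub_self]⟩
      exact A.φ_lam t
  · rintro ⟨h1, h3⟩ e ⟨k, hk⟩
    rw [← mem_span]
    apply h1
    induction k generalizing e with
    | zero =>
      have : e = 0 := hk
      rw [this, map_zero]
    | succ k ih =>
      rw [pow_succ, Module.End.mul_apply, hφ] at hk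
      exact h3 e (ih _ hk)

/-- Surjectivity: the four lemma. -/
theorem four {A₂ A₃ A₄ A₅ : Node Ω} (a₂ : Arrow A₂ A₃) (a₃ : Arrow A₃ A₄)
    (a₄ : Arrow A₄ A₅) (e₃ : Function.Exact a₃.f a₄.f)
    (e₂' : Function.Exact a₂.g a₃.g) (e₃' : Function.Exact a₃.g a₄.g)
    (h₂ : NOnto A₂) (h₄ : NOnto A₄) (h₅ : A₅.Good) : NOnto A₃ := by
  have t₃ := a₃.exact_ten a₄ e₃
  intro e he
  obtain ⟨u, hu⟩ := h₄ _ (a₃.inG he)
  have h1 : a₄.ten u = 0 := by
    apply h₅.1
    rw [a₄.lam_ten, hu, map_zero]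
    exact (e₃' _).2 ⟨e, rfl⟩
  obtain ⟨t, rfl⟩ := (t₃ u).1 h1
  rw [a₃.lam_ten] at hu
  have h2 : a₃.g (e + -A₃.lam t) = 0 := by
    rw [map_add, map_neg, hu, add_neg_cancel]
  obtain ⟨v, hv, hv'⟩ := a₂.fitting a₃ e₂' _ (he.add (A₃.inG_lam t).neg) h2
  obtain ⟨w, rfl⟩ := h₂ v hv
  refine ⟨t + a₂.ten w, ?_⟩
  rw [map_add, a₂.lam_ten, hv']
  abel

/-- Nodes without motivic part and without eigenvalue one. -/
theorem good_of_zero (A : Node Ω) (h : ∀ x : A.M, x = 0) (h' : ∀ e, A.φ e = e → e = 0) :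
    A.Good := by
  constructor
  · rw [injective_iff_map_eq_zero]
    intro t ht
    clear ht
    induction t using TensorProduct.induction_on with
    | zero => rfl
    | tmul c x => rw [h x, TensorProduct.tmul_zero]
    | add x y hx hy => rw [hx, hy, add_zero]
  · rintro e ⟨k, hk⟩
    refine ⟨0, ?_⟩
    rw [map_zero]
    symm
    induction k generalizing e with
    | zero => exact hk
    | succ k ih =>
      rw [pow_succ, Module.End.mul_apply] at hk
      have h1 := ih _ hk
      apply h'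
      rw [LinearMap.sub_apply, sub_eq_zero] at h1
      exact h1

theorem onto_iff (hT : IsTheory T) (X : Sch k) :
    Onto T X ↔ ∀ j, NOnto (node hT X (2 * j) j) := by
  refine forall_congr' fun j => ?_
  rw [nonto_iff]
  exact Iff.rfl

/-- The groups in degree below `2 i`. -/
theorem good_below (hT : IsTheory T) (hW : HasWeights T) (X : Sch k) {n i : ℤ}
    (h : n < 2 * i) : (node hT X n i).Good :=
  good_of_zero _ (hW.motivic X n i h) (hW.weights X n i h)

/-- The complement of a closed subscheme: surjectivity. -/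
theorem onto_opened (hT : IsTheory T) (hW : HasWeights T) {Z X U : Sch k}
    (h : Localization T Z X U) (hX : Onto T X) : Onto T U := by
  rw [onto_iff hT] at hX ⊢
  intro i
  have hX := hX i
  obtain ⟨n, hn⟩ : ∃ n, 2 * i = n + 1 := ⟨2 * i - 1, by ring⟩
  have hlt : n < 2 * i := by omega
  rw [hn] at hX ⊢
  obtain ⟨a, b, d, h⟩ := h i
  exact four ((b (n + 1)).arr hT) ((d n).arr hT) ((a n).arr hT)
    (h n).2.2.1 (h n).2.1.2 (h n).2.2.2 hX (good_below hT hW Z hlt).2
    (good_below hT hW X hlt)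

/-- The union: surjectivity. -/
theorem onto_total (hT : IsTheory T) (hW : HasWeights T) {Z X U : Sch k}
    (h : Localization T Z X U) (hZ : Onto T Z) (hU : Onto T U) : Onto T X := by
  rw [onto_iff hT] at hZ hU ⊢
  intro i
  have hZ := hZ i
  have hU := hU i
  obtain ⟨n, hn⟩ : ∃ n, 2 * i = n + 1 := ⟨2 * i - 1, by ring⟩
  have hlt : n < 2 * i := by omega
  rw [hn] at hZ hU ⊢
  obtain ⟨a, b, d, h⟩ := h i
  exact four ((a (n + 1)).arr hT) ((b (n + 1)).arr hT) ((d n).arr hT)
    (h n).2.1.1 (h (n + 1)).1.2 (h n).2.1.2 hZ hU (good_below hT hW Z hlt)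

/-- Direct factors: surjectivity. -/
theorem onto_factor (hT : IsTheory T) {X Y : Sch k} {r : ℤ} (h : IsFactor T X Y r)
    (hY : Onto T Y) : Onto T X := by
  rw [onto_iff hT] at hY ⊢
  intro j e he
  obtain ⟨s, t, h1, h2⟩ := h (2 * j) j
  have h4 := hY (j + r)
  have h5 : 2 * (j + r) = 2 * j + 2 * r := by ring
  rw [h5] at h4
  obtain ⟨u, hu⟩ := h4 _ ((s.arr hT).inG he)
  refine ⟨(t.arr hT).ten u, ?_⟩
  rw [(t.arr hT).lam_ten, hu]
  exact h2 e

end

end Pool.Agent.N882.UE
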